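import Mathlib
import Pool.Agent.Shared.StallingsSwan.Swan

set_option autoImplicit false

/-!
Fox calculus: if `G = F / ⟨⟨r⟩⟩` with `r` conjugate to `s ^ m`, the characteristic of `k` divides
`m`, and a subgroup `H` of `G` embeds in a quotient of `G` in which `s` is trivial, then the
augmentation ideal of `k[H]` is projective.
-/

namespace Pool.Agent.Shared.OneRelator

open Pool.Agent.Shared.StallingsSwan

/-- The set of edges of the Cayley graph. -/
@[ext] structure Cay (M X : Type) where
  src : M
  lab : X

variable {X M H k : Type} [Group M] [Group H] [Field k]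

instance : MulAction M (Cay M X) where
  smul g e := ⟨g * e.src, e.lab⟩
  one_smul e := by change (⟨1 * e.src, e.lab⟩ : Cay M X) = e; rw [one_mul]
  mul_smul g h e := by
    change (⟨g * h * e.src, e.lab⟩ : Cay M X) = ⟨g * (h * e.src), e.lab⟩; rw [mul_assoc]

theorem Cay.smul_def (g : M) (e : Cay M X) : g • e = ⟨g * e.src, e.lab⟩ := rfl

/-- The affine action of the free group given by the Fox derivative. -/
noncomputable def fox (k : Type) [Field k] (ρ : FreeGroup X →* M) :
    FreeGroup X →* Equiv.Perm (Cay M X →₀ k) :=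
  FreeGroup.lift (fun x => aff (ρ (FreeGroup.of x)) (Finsupp.single ⟨1, x⟩ 1))

theorem fox_affine (ρ : FreeGroup X →* M) (w : FreeGroup X) (f : Cay M X →₀ k) :
    fox k ρ w f = fox k ρ w 0 + sh (ρ w) f := by
  have : ⊤ ≤ affine ρ (fox k ρ) := by
    rw [← FreeGroup.closure_range_of, Subgroup.closure_le]
    rintro _ ⟨x, rfl⟩ f
    simp [fox, aff]
  exact this (Subgroup.mem_top w) f

/-- The boundary map of the Cayley graph. -/
noncomputable def bd (k : Type) [Field k] (ρ : FreeGroup X →* M) : (Cay M X →₀ k) →ₗ[k] (M →₀ k) :=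
  Finsupp.linearCombination k
    (fun e => Finsupp.single (e.src * ρ (FreeGroup.of e.lab)) 1 - Finsupp.single e.src 1)

theorem bd_sh (ρ : FreeGroup X →* M) (g : M) (f : Cay M X →₀ k) :
    bd k ρ (sh g f) = sh g (bd k ρ f) := by
  induction f using Finsupp.induction_linear with
  | zero => simp
  | add u v hu hv => simp only [map_add, hu, hv]
  | single e c => simp [sh_single, bd, Cay.smul_def, mul_assoc]

theorem aug_bd (ρ : FreeGroup X →* M) (f : Cay M X →₀ k) : aug (bd k ρ f) = 0 := by
  induction f using Finsupp.induction_linear with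
  | zero => simp
  | add u v hu hv => simp only [map_add, hu, hv, add_zero]
  | single e c => simp [bd, aug]

theorem bd_fox (ρ : FreeGroup X →* M) (w : FreeGroup X) :
    bd k ρ (fox k ρ w 0) = Finsupp.single (ρ w) 1 - Finsupp.single 1 1 := by
  have hmul : ∀ a b, fox k ρ (a * b) 0 = fox k ρ a 0 + sh (ρ a) (fox k ρ b 0) := fun a b => by
    rw [map_mul, Equiv.Perm.mul_apply, fox_affine]
  induction w using FreeGroup.induction_on with
  | C1 => simp
  | of x => simp [fox, aff, bd]
  | inv_of x ih =>
    have h1 := congrArg (bd k ρ) (hmul (FreeGroup.of x)⁻¹ (FreeGroup.of x))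
    rw [inv_mul_cancel, map_one, Equiv.Perm.one_apply, map_zero, map_add, bd_sh, ih, map_sub,
      sh_single, sh_single, smul_eq_mul, smul_eq_mul, ← map_mul, inv_mul_cancel, map_one,
      mul_one] at h1
    rw [eq_neg_of_add_eq_zero_left h1.symm, neg_sub]
  | mul a b iha ihb =>
    rw [hmul, map_add, bd_sh, iha, ihb, map_sub, sh_single, sh_single, smul_eq_mul, smul_eq_mul,
      mul_one, map_mul]
    abel

theorem fox_pow (ρ : FreeGroup X →* M) {s : FreeGroup X} (hs : ρ s = 1) {m : ℕ}
    (hm : (m : k) = 0) : fox k ρ (s ^ m) = 1 := by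
  have h1 : ∀ (n : ℕ) f, fox k ρ (s ^ n) f = (n : k) • fox k ρ s 0 + f := by
    intro n
    induction n with
    | zero => simp
    | succ n ih =>
      intro f
      rw [pow_succ', map_mul, Equiv.Perm.mul_apply, ih, fox_affine, hs, sh_one]
      push_cast
      rw [add_smul, one_smul]
      abel
  ext1 f
  rw [h1, hm, zero_smul, zero_add, Equiv.Perm.one_apply]

theorem exists_retraction (j : H →* M) (hj : Function.Injective j) :
    ∃ π : M → H, π 1 = 1 ∧ ∀ h x, π (j h * x) = h * π x := by
  classical
  let S : Setoid M := QuotientGroup.rightRel j.range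
  have hex : ∀ x : M, ∃ h : H, j h = x * (Quotient.mk S x).out⁻¹ := fun x =>
    QuotientGroup.rightRel_apply.1 (Quotient.mk_out (s := S) x)
  choose p hp using hex
  have hpm : ∀ h x, p (j h * x) = h * p x := by
    intro h x
    apply hj
    have h1 : Quotient.mk S (j h * x) = Quotient.mk S x := by
      have h2 : j h * x * x⁻¹ ∈ j.range := ⟨h, by simp⟩
      exact (Quotient.sound (s := S) (QuotientGroup.rightRel_apply.2 h2)).symm
    rw [map_mul, hp, hp, h1, mul_assoc]
  exact ⟨fun x => p x * (p 1)⁻¹, mul_inv_cancel _, fun h x => by simp only [hpm, mul_assoc]⟩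

/-- The subgroup `H` is free as soon as it embeds in the locally indicable quotient. -/
theorem isFreeGroup_of_embeds {G : Type} [Group G] [Finite k] [Countable H]
    (ρ : FreeGroup X →* M) (σ : FreeGroup X →* G) (hσ : Function.Surjective σ)
    (hker : σ.ker ≤ (fox k ρ).ker) (i : H →* G) (q : G →* M) (hq : q.comp σ = ρ)
    (hinj : Function.Injective (q.comp i)) (hM : LocInd M) : IsFreeGroup H := by
  classical
  set j := q.comp i with hjdef
  let _ : MulAction H (Cay M X) := MulAction.compHom _ j
  have hsm : ∀ (h : H) (e : Cay M X), h • e = j h • e := fun _ _ => rfl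
  have hsh : ∀ (h : H) (f : Cay M X →₀ k), sh h f = sh (j h) f := fun _ _ => rfl
  choose w hw using fun h : H => hσ (i h)
  have hρw : ∀ h, ρ (w h) = j h := fun h => by rw [← hq, MonoidHom.comp_apply, hw]; rfl
  have hfox : ∀ a b, σ a = σ b → fox k ρ a = fox k ρ b := fun a b hab => by
    have h1 : fox k ρ (a⁻¹ * b) = 1 := hker (by simp [hab])
    rwa [map_mul, map_inv, inv_mul_eq_one] at h1
  obtain ⟨π, hπ1, hπ⟩ := exists_retraction j hinj
  have hP : Proj (fun h : H => fox k ρ (w h) 0) ((Finsupp.lmapDomain k k π).comp (bd k ρ)) := by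
    refine ⟨fun g e he => hinj ?_, fun a _ b _ => ?_, fun g f => ?_, fun f => ?_, fun g => ?_⟩
    · have h1 := congrArg Cay.src he
      rw [map_one]
      simpa [hsm, Cay.smul_def] using h1
    · rw [hfox (w (a * b)) (w a * w b) (by simp [hw]), map_mul, Equiv.Perm.mul_apply, fox_affine,
        hρw, hsh]
    · rw [LinearMap.comp_apply, LinearMap.comp_apply, hsh, bd_sh]
      generalize bd k ρ f = u
      induction u using Finsupp.induction_linear with
      | zero => simp
      | add u v hu hv => simp only [map_add, hu, hv]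
      | single x c => simp [sh_single, hπ]
    · rw [LinearMap.comp_apply, ← aug_bd ρ f]
      generalize bd k ρ f = u
      induction u using Finsupp.induction_linear with
      | zero => simp
      | add u v hu hv => simp only [map_add, hu, hv]
      | single x c => simp [aug]
    · have h1 := hπ g 1
      rw [mul_one, hπ1, mul_one] at h1
      rw [LinearMap.comp_apply, bd_fox, hρw, map_sub]
      simp [h1, hπ1]
  exact hP.isFreeGroup (hM.of_injective j hinj)

end Pool.Agent.Shared.OneRelator
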