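import Mathlib

set_option autoImplicit false

/-!
Every nontrivial element of a free group is conjugate to a power of a cyclically reduced word
all of whose cyclic rotations are different.
-/

namespace Pool.Agent.Shared.OneRelator

open FreeGroup

variable {X : Type}

/-- Powers of lists. -/
def lpow {α : Type} (t : List α) : ℕ → List α
  | 0 => []
  | n + 1 => t ++ lpow t n

theorem lpow_add {α : Type} (t : List α) (m n : ℕ) : lpow t (m + n) = lpow t m ++ lpow t n := by
  induction m with
  | zero => simp [lpow]
  | succ m ih => rw [Nat.succ_add]; simp [lpow, ih]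

theorem lpow_mul {α : Type} (t : List α) (m n : ℕ) : lpow t (m * n) = lpow (lpow t m) n := by
  induction n with
  | zero => simp [lpow]
  | succ n ih => rw [Nat.mul_succ, add_comm, lpow_add, ih]; rfl

theorem lpow_succ' {α : Type} (t : List α) (n : ℕ) : lpow t (n + 1) = lpow t n ++ t := by
  rw [lpow_add]; simp [lpow]

theorem length_lpow {α : Type} (t : List α) (n : ℕ) : (lpow t n).length = n * t.length := by
  induction n with
  | zero => simp [lpow]
  | succ n ih => simp [lpow, ih]; ring

theorem mk_lpow (t : List (X × Bool)) (n : ℕ) : mk (lpow t n) = mk t ^ n := by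
  induction n with
  | zero => rfl
  | succ n ih => rw [pow_succ', ← ih]; rfl

theorem exists_lpow_of_comm {α : Type} : ∀ (n : ℕ) (u v : List α), u.length + v.length ≤ n →
    u ++ v = v ++ u → ∃ t a b, u = lpow t a ∧ v = lpow t b := by
  intro n
  induction n with
  | zero =>
    intro u v h _
    have hu : u = [] := List.length_eq_zero_iff.1 (by omega)
    have hv : v = [] := List.length_eq_zero_iff.1 (by omega)
    exact ⟨[], 0, 0, hu, hv⟩
  | succ n ih =>
    intro u v h huv
    by_cases hu : u = []
    · exact ⟨v, 0, 1, hu, by simp [lpow]⟩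
    by_cases hv : v = []
    · exact ⟨u, 1, 0, by simp [lpow], hv⟩
    have hu' := List.length_pos_iff.2 hu
    have hv' := List.length_pos_iff.2 hv
    rcases List.append_eq_append_iff.1 huv with ⟨w, h1, h2⟩ | ⟨w, h1, h2⟩
    · obtain ⟨t, a, b, ha, hb⟩ := ih u w (by rw [h1] at h; simp at h; omega) (h1.symm.trans h2)
      exact ⟨t, a, a + b, ha, by rw [lpow_add, ← ha, ← hb, h1]⟩
    · obtain ⟨t, a, b, ha, hb⟩ := ih v w (by rw [h1] at h; simp at h; omega) (h1.symm.trans h2)
      exact ⟨t, a + b, a, by rw [lpow_add, ← ha, ← hb, h1], ha⟩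

/-- Nonempty cyclically reduced words without rotational symmetry. -/
structure Prim (s : List (X × Bool)) : Prop where
  intro ::
  ne : s ≠ []
  red : IsCyclicallyReduced s
  rot : ∀ d, 0 < d → d < s.length → s.rotate d ≠ s

theorem exists_prim (r : FreeGroup X) (hr : r ≠ 1) :
    ∃ (u : FreeGroup X) (s : List (X × Bool)) (m : ℕ), Prim s ∧ 1 ≤ m ∧
      r = u * mk s ^ m * u⁻¹ := by
  classical
  set w := reduceCyclically r.toWord with hw
  have hwred : IsCyclicallyReduced w := reduceCyclically.isCyclicallyReduced isReduced_toWord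
  have hrw : r = mk (reduceCyclically.conjugator r.toWord) * mk w *
      (mk (reduceCyclically.conjugator r.toWord))⁻¹ := by
    rw [inv_mk, mul_mk, mul_mk, hw, reduceCyclically.conj_conjugator_reduceCyclically, mk_toWord]
  have hw0 : w ≠ [] := by
    intro h
    rw [h] at hrw
    exact hr (by rw [hrw, ← one_eq_mk, mul_one, mul_inv_cancel])
  have hex : ∃ k, ∃ s m, s.length = k ∧ w = lpow s m := ⟨_, w, 1, rfl, by simp [lpow]⟩
  obtain ⟨s, m, hlen, hsm⟩ := Nat.find_spec hex
  have hm : 1 ≤ m := by
    rcases m with _ | m
    · exact absurd hsm hw0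
    · omega
  obtain ⟨m, rfl⟩ : ∃ m', m = m' + 1 := ⟨m - 1, by omega⟩
  have hs0 : s ≠ [] := by
    rintro rfl
    apply hw0
    apply List.length_eq_zero_iff.1
    rw [hsm, length_lpow]; simp
  refine ⟨_, s, m + 1, ⟨hs0, ⟨?_, ?_⟩, ?_⟩, hm, by rw [← mk_lpow, ← hsm]; exact hrw⟩
  · have h1 : IsReduced (s ++ lpow s m) := by
      have h2 := hwred.1
      rwa [hsm] at h2
    exact List.IsChain.left_of_append h1
  · intro a ha b hb
    refine hwred.2 a ?_ b ?_
    · rw [hsm, lpow_succ', List.getLast?_append, Option.mem_def.1 ha]; simp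
    · rw [hsm, lpow, List.head?_append, Option.mem_def.1 hb]; simp
  · intro d hd hds hrot
    rw [List.rotate_eq_drop_append_take hds.le] at hrot
    obtain ⟨t, a, b, ha, hb⟩ := exists_lpow_of_comm _ (s.take d) (s.drop d) le_rfl
      (by rw [hrot, List.take_append_drop])
    have hs : s = lpow t (a + b) := by rw [lpow_add, ← ha, ← hb, List.take_append_drop]
    have h1 : (s.take d).length = a * t.length := by rw [ha, length_lpow]
    have h2 : (s.drop d).length = b * t.length := by rw [hb, length_lpow]
    rw [List.length_take] at h1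
    rw [List.length_drop] at h2
    have ha0 : a ≠ 0 := by rintro rfl; rw [zero_mul] at h1; omega
    have h3 : t.length ≤ a * t.length := Nat.le_mul_of_pos_left _ (Nat.pos_of_ne_zero ha0)
    have := Nat.find_min' hex ⟨t, (a + b) * (m + 1), rfl, by rw [lpow_mul, ← hs]; exact hsm⟩
    omega

theorem Prim.isReduced_append {s : List (X × Bool)} (h : Prim s) : IsReduced (s ++ s) := by
  simpa using (h.red.flatten_replicate 2).isReduced

theorem Prim.conj_injective {s : List (X × Bool)} (h : Prim s) {i j : ℕ} (hi : i < s.length)
    (hj : j < s.length) (hij : (mk (s.take i))⁻¹ * mk s * mk (s.take i) =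
      (mk (s.take j))⁻¹ * mk s * mk (s.take j)) : i = j := by
  classical
  have hrot : ∀ k, k ≤ s.length → (mk (s.take k))⁻¹ * mk s * mk (s.take k) = mk (s.rotate k) := by
    intro k hk
    rw [List.rotate_eq_drop_append_take hk, ← mul_mk]
    conv_lhs => enter [1, 2]; rw [← List.take_append_drop k s, ← mul_mk]
    group
  have hred : ∀ k, k ≤ s.length → IsReduced (s.rotate k) := by
    intro k hk
    rw [List.rotate_eq_drop_append_take hk]
    have h1 : IsReduced (s.take k ++ ((s.drop k ++ s.take k) ++ s.drop k)) := by
      have h2 := h.isReduced_append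
      rwa [List.append_assoc, List.take_append_drop, ← List.append_assoc, List.take_append_drop]
    exact List.IsChain.left_of_append (List.IsChain.right_of_append h1)
  rw [hrot i hi.le, hrot j hj.le] at hij
  have h1 : s.rotate i = s.rotate j := by
    have := congrArg toWord hij
    rwa [toWord_mk, toWord_mk, (hred i hi.le).reduce_eq, (hred j hj.le).reduce_eq] at this
  have key : ∀ i j, j < s.length → s.rotate i = s.rotate j → ¬ i < j := by
    intro i j hj h1 hlt
    refine h.rot (j - i) (by omega) (by omega) (List.rotate_injective i ?_)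
    dsimp only
    rw [List.rotate_rotate, h1]
    congr 1
    omega
  have := key i j hj h1
  have := key j i hi h1.symm
  omega

theorem Prim.adj {s : List (X × Bool)} (h : Prim s) {i j : ℕ} (hi : i < s.length)
    (hj : j < s.length) (hij : i = j + 1 ∨ (i = 0 ∧ j + 1 = s.length)) (hx : s[j].1 = s[i].1) :
    s[j].2 = s[i].2 := by
  have h1 := List.isChain_iff_getElem.1 h.isReduced_append j (by simp; omega)
  have h2 : (s ++ s)[j]'(by simp; omega) = s[j] := List.getElem_append_left hj
  have h3 : (s ++ s)[j + 1]'(by simp; omega) = s[i] := by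
    rcases hij with rfl | ⟨rfl, h4⟩
    · exact List.getElem_append_left hi
    · rw [List.getElem_append_right (by omega)]
      congr 1
      omega
  rw [h2, h3] at h1
  exact h1 hx

end Pool.Agent.Shared.OneRelator
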