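import Mathlib
import Pool.Agent.Shared.OneRelator.Words

set_option autoImplicit false

/-!
The counting inequality for cycles labelled by a fixed word (Louder and Wilton, Helfer and Wise).
-/

namespace Pool.Agent.Shared.OneRelator

open FreeGroup

variable {X Ω Θ : Type} [MulAction (FreeGroup X) Ω]

/-- The right action attached to a left action. -/
def act (v : Ω) (g : FreeGroup X) : Ω := g⁻¹ • v

theorem act_mul (v : Ω) (g h : FreeGroup X) : act v (g * h) = act (act v g) h := by
  simp [act, mul_smul]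

@[simp] theorem act_one (v : Ω) : act v (1 : FreeGroup X) = v := by simp [act]

theorem act_injective (g : FreeGroup X) : Function.Injective (fun v : Ω => act v g) :=
  MulAction.injective g⁻¹

theorem mk_true (x : X) : mk [(x, true)] = of x := rfl

theorem mk_false (x : X) : mk [(x, false)] = (of x)⁻¹ := rfl

/-- The edge crossed when reading a letter from a vertex. -/
def ed (v : Ω) (b : X × Bool) : Ω × X := if b.2 then (v, b.1) else (act v (mk [b]), b.1)

variable [Inhabited X]

/-- The initial segment of length `k`. -/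
def pre (w : List (X × Bool)) (k : ℕ) : FreeGroup X := mk (w.take k)

/-- The letter in position `i`. -/
def ltr (w : List (X × Bool)) (i : ℕ) : X × Bool := w.getD i default

omit [Inhabited X] in
@[simp] theorem pre_zero (w : List (X × Bool)) : pre w 0 = 1 := rfl

omit [Inhabited X] in
@[simp] theorem pre_length (w : List (X × Bool)) : pre w w.length = mk w := by simp [pre]

theorem ltr_eq {w : List (X × Bool)} {i : ℕ} (hi : i < w.length) : ltr w i = w[i] := by
  simp [ltr, List.getD_eq_getElem?_getD, hi]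

theorem pre_succ {w : List (X × Bool)} {i : ℕ} (hi : i < w.length) :
    pre w (i + 1) = pre w i * mk [ltr w i] := by
  rw [pre, pre, ltr_eq hi, mul_mk, List.take_succ_eq_append_getElem hi]

/-- The vertex in position `i` of the path. -/
def vx (w : List (X × Bool)) (v : Ω) (i : ℕ) : Ω := act v (pre w i)

/-- The edge in position `i` of the path. -/
def eg (w : List (X × Bool)) (v : Ω) (i : ℕ) : Ω × X := ed (vx w v i) (ltr w i)

/-- Index of the source of the edge in position `i`. -/
def src (w : List (X × Bool)) (i : ℕ) : ℕ := if (ltr w i).2 then i else i + 1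

/-- Index of the target of the edge in position `i`. -/
def tgt (w : List (X × Bool)) (i : ℕ) : ℕ := if (ltr w i).2 then i + 1 else i

theorem vx_succ {w : List (X × Bool)} {i : ℕ} (hi : i < w.length) (v : Ω) :
    vx w v (i + 1) = act (vx w v i) (mk [ltr w i]) := by
  rw [vx, pre_succ hi, act_mul, vx]

theorem eg_eq {w : List (X × Bool)} {i : ℕ} (hi : i < w.length) (v : Ω) :
    eg w v i = (vx w v (src w i), (ltr w i).1) := by
  unfold eg ed src
  split_ifs
  · rfl
  · rw [vx_succ hi]

theorem pre_tgt {w : List (X × Bool)} {i : ℕ} (hi : i < w.length) :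
    pre w (tgt w i) = pre w (src w i) * of (ltr w i).1 := by
  have h := pre_succ hi
  unfold src tgt
  generalize ltr w i = b at h ⊢
  obtain ⟨x, _ | _⟩ := b
  · simp only [Bool.false_eq_true, if_false]; rw [h, mk_false]; simp
  · simp only [if_true]; rw [h, mk_true]

theorem vx_tgt {w : List (X × Bool)} {i : ℕ} (hi : i < w.length) (v : Ω) :
    vx w v (tgt w i) = act (vx w v (src w i)) (of (ltr w i).1) := by
  rw [vx, pre_tgt hi, act_mul, vx]

theorem src_tgt_cases (w : List (X × Bool)) (i : ℕ) :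
    ((ltr w i).2 = true ∧ src w i = i ∧ tgt w i = i + 1) ∨
      ((ltr w i).2 = false ∧ src w i = i + 1 ∧ tgt w i = i) := by
  unfold src tgt
  cases (ltr w i).2 <;> simp

theorem exists_step {P : ℕ → Prop} {a b : ℕ} (hab : a ≤ b) (ha : ¬ P a) (hb : P b) :
    ∃ i, i < b ∧ ¬ P i ∧ P (i + 1) := by
  induction b, hab using Nat.le_induction with
  | base => exact absurd hb ha
  | succ b _ ih =>
    by_cases h : P b
    · obtain ⟨i, h1, h2⟩ := ih h
      exact ⟨i, by omega, h2⟩
    · exact ⟨b, by omega, h, hb⟩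

section count

variable [MulAction (FreeGroup X) Θ] [LinearOrder Θ] {s : List (X × Bool)} {θ : Θ}

/-- Hypotheses on the ordered set used to stack the cycles. -/
structure Stack (s : List (X × Bool)) (θ : Θ) : Prop where
  intro ::
  prim : Prim s
  mono : ∀ (g : FreeGroup X) (a b : Θ), a ≤ b → act a g ≤ act b g
  fix : act θ (mk s) = θ
  inj : ∀ i j, i < s.length → j < s.length → vx s θ i = vx s θ j → i = j

omit [Inhabited X] in
theorem Stack.le_iff (h : Stack s θ) (g : FreeGroup X) (a b : Θ) : act a g ≤ act b g ↔ a ≤ b := by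
  refine ⟨fun h1 => ?_, h.mono g a b⟩
  have := h.mono g⁻¹ _ _ h1
  rwa [← act_mul, ← act_mul, mul_inv_cancel, act_one, act_one] at this

omit [Inhabited X] in
theorem Stack.inj' (h : Stack s θ) {i j : ℕ} (hi : i < s.length) (hj : j < s.length)
    (e : vx s θ i = vx s θ (j + 1)) : i = j + 1 ∨ (i = 0 ∧ j + 1 = s.length) := by
  by_cases hj' : j + 1 < s.length
  · exact Or.inl (h.inj _ _ hi hj' e)
  · have h1 : j + 1 = s.length := by omega
    refine Or.inr ⟨h.inj _ _ hi (by omega) ?_, h1⟩
    rw [e, h1, vx, vx, pre_length, h.fix, pre_zero, act_one]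

theorem Stack.eg_inj (h : Stack s θ) {c c' : Ω} {i j : ℕ} (hi : i < s.length) (hj : j < s.length)
    (e : eg s c i = eg s c' j) (k : vx s θ (src s i) = vx s θ (src s j)) : c = c' ∧ i = j := by
  rw [eg_eq hi, eg_eq hj, Prod.mk.injEq] at e
  have hij : i = j := by
    have k' : vx s θ (tgt s i) = vx s θ (tgt s j) := by rw [vx_tgt hi, vx_tgt hj, k, e.2]
    rcases src_tgt_cases s i with ⟨a1, a2, a3⟩ | ⟨a1, a2, a3⟩ <;>
      rcases src_tgt_cases s j with ⟨b1, b2, b3⟩ | ⟨b1, b2, b3⟩
    · rw [a2, b2] at k; exact h.inj _ _ hi hj k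
    · rw [a2, b2] at k
      have := h.prim.adj hi hj (h.inj' hi hj k) (by rw [← ltr_eq, ← ltr_eq]; exact e.2.symm)
      rw [← ltr_eq, ← ltr_eq, a1, b1] at this
      cases this
    · rw [a2, b2] at k
      have := h.prim.adj hj hi (h.inj' hj hi k.symm) (by rw [← ltr_eq, ← ltr_eq]; exact e.2)
      rw [← ltr_eq, ← ltr_eq, a1, b1] at this
      cases this
    · rw [a3, b3] at k'; exact h.inj _ _ hi hj k'
  subst hij
  exact ⟨act_injective _ e.1, rfl⟩

theorem wcycles [DecidableEq Ω] [DecidableEq X] (h : Stack s θ) (C : Finset Ω)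
    (hC : ∀ c ∈ C, act c (mk s) = c)
    (hfree : ∀ c ∈ C, ∀ i < s.length, ∃ c' ∈ C, ∃ j < s.length,
      eg s c' j = eg s c i ∧ ¬ (c' = c ∧ j = i)) :
    ((C ×ˢ Finset.range s.length).image (fun p => vx s p.1 p.2)).card + C.card ≤
      ((C ×ˢ Finset.range s.length).image (fun p => eg s p.1 p.2)).card := by
  classical
  have hL : 0 < s.length := List.length_pos_iff.2 h.prim.ne
  set Pos := C ×ˢ Finset.range s.length with hPos
  have hmem : ∀ p : Ω × ℕ, p ∈ Pos ↔ p.1 ∈ C ∧ p.2 < s.length := by simp [hPos]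
  let κ : ℕ → Θ := vx s θ
  let Top : Ω → ℕ → Prop := fun c i =>
    ∀ c' ∈ C, ∀ j ≤ s.length, vx s c' j = vx s c i → κ j ≤ κ i
  let TopE : Ω → ℕ → Prop := fun c i =>
    ∀ c' ∈ C, ∀ j < s.length, eg s c' j = eg s c i → κ (src s j) ≤ κ (src s i)
  have hvL : ∀ c ∈ C, vx s c s.length = vx s c 0 := fun c hc => by
    rw [vx, vx, pre_length, hC c hc, pre_zero, act_one]
  have hκL : κ s.length = κ 0 := by
    simp only [κ]; rw [vx, vx, pre_length, h.fix, pre_zero, act_one]
  have hsrc : ∀ j < s.length, src s j ≤ s.length ∧ tgt s j ≤ s.length := fun j hj => by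
    rcases src_tgt_cases s j with ⟨-, h1, h2⟩ | ⟨-, h1, h2⟩ <;> omega
  have hT1 : ∀ c, ∀ i < s.length, Top c (src s i) → TopE c i := by
    intro c i hi hT c' hc' j hj e
    rw [eg_eq hi, eg_eq hj, Prod.mk.injEq] at e
    exact hT c' hc' _ (hsrc j hj).1 e.1
  have hT2 : ∀ c, ∀ i < s.length, Top c (tgt s i) → TopE c i := by
    intro c i hi hT c' hc' j hj e
    rw [eg_eq hi, eg_eq hj, Prod.mk.injEq] at e
    have := hT c' hc' _ (hsrc j hj).2 (by rw [vx_tgt hi, vx_tgt hj, e.1, e.2])
    simp only [κ] at this ⊢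
    rwa [vx_tgt hi, vx_tgt hj, e.2, h.le_iff] at this
  have hTa : ∀ c, ∀ i < s.length, Top c i → TopE c i := by
    intro c i hi hT
    rcases src_tgt_cases s i with ⟨-, h1, h2⟩ | ⟨-, h1, h2⟩
    · exact hT1 c i hi (by rwa [h1])
    · exact hT2 c i hi (by rwa [h2])
  have hTb : ∀ c, ∀ i < s.length, Top c (i + 1) → TopE c i := by
    intro c i hi hT
    rcases src_tgt_cases s i with ⟨-, h1, h2⟩ | ⟨-, h1, h2⟩
    · exact hT2 c i hi (by rwa [h2])
    · exact hT1 c i hi (by rwa [h1])
  obtain ⟨iM, hiM, hmax⟩ := (Finset.range s.length).exists_max_image κ ⟨0, by simpa using hL⟩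
  obtain ⟨im, him, hmin⟩ := (Finset.range s.length).exists_min_image κ ⟨0, by simpa using hL⟩
  rw [Finset.mem_range] at hiM him
  have hmax' : ∀ j ≤ s.length, κ j ≤ κ iM := fun j hj => by
    rcases hj.lt_or_eq with h1 | rfl
    · exact hmax j (by simpa using h1)
    · rw [hκL]; exact hmax 0 (by simpa using hL)
  have hmin' : ∀ j ≤ s.length, κ im ≤ κ j := fun j hj => by
    rcases hj.lt_or_eq with h1 | rfl
    · exact hmin j (by simpa using h1)
    · rw [hκL]; exact hmin 0 (by simpa using hL)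
  have hnot : ∀ c ∈ C, ¬ Top c im := by
    intro c hc hT
    obtain ⟨c', hc', j, hj, e, hne⟩ := hfree c hc im him
    refine hne (h.eg_inj hj him e ?_)
    have e' := e
    rw [eg_eq him, eg_eq hj, Prod.mk.injEq] at e'
    rcases src_tgt_cases s im with ⟨-, h1, h2⟩ | ⟨-, h1, h2⟩
    · rw [h1] at e' ⊢
      exact le_antisymm (hT c' hc' _ (hsrc j hj).1 e'.1) (hmin' _ (hsrc j hj).1)
    · have h3 : κ (tgt s j) = κ (tgt s im) := by
        rw [h2]
        refine le_antisymm (hT c' hc' _ (hsrc j hj).2 ?_) (hmin' _ (hsrc j hj).2)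
        have h4 := vx_tgt him c
        rw [h2] at h4
        rw [vx_tgt hj, h4, e'.1, e'.2]
      simp only [κ] at h3
      rw [vx_tgt hj, vx_tgt him, e'.2] at h3
      exact act_injective _ h3
  have hex : ∀ c ∈ C, ∃ i, i < s.length ∧ ¬ Top c i ∧ Top c (i + 1) := by
    intro c hc
    have hM : Top c iM := fun c' _ j hj _ => hmax' j hj
    by_cases h0 : Top c 0
    · refine exists_step him.le (hnot c hc) (fun c' hc' j hj e => ?_)
      rw [hκL]
      exact h0 c' hc' j hj (by rw [e, hvL c hc])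
    · obtain ⟨i, h1, h2⟩ := exists_step (Nat.zero_le iM) h0 hM
      exact ⟨i, by omega, h2⟩
  choose! f hf using hex
  let TV := Pos.filter (fun p => Top p.1 p.2)
  let TE := Pos.filter (fun p => TopE p.1 p.2)
  let R := C.image (fun c => (c, f c))
  have h1 : (Pos.image (fun p => vx s p.1 p.2)).card ≤ TV.card := by
    refine le_trans (Finset.card_le_card ?_) (Finset.card_image_le (f := fun p => vx s p.1 p.2))
    intro v hv
    obtain ⟨p, hp, rfl⟩ := Finset.mem_image.1 hv
    obtain ⟨q, hq, hqmax⟩ := (Pos.filter (fun q => vx s q.1 q.2 = vx s p.1 p.2)).exists_max_image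
      (fun q => κ q.2) ⟨p, by simp [hp]⟩
    rw [Finset.mem_filter] at hq
    refine Finset.mem_image.2 ⟨q, Finset.mem_filter.2 ⟨hq.1, fun c' hc' j hj e => ?_⟩, hq.2⟩
    rcases hj.lt_or_eq with h1 | rfl
    · exact hqmax (c', j) (Finset.mem_filter.2 ⟨(hmem _).2 ⟨hc', h1⟩, e.trans hq.2⟩)
    · rw [hκL]
      exact hqmax (c', 0) (Finset.mem_filter.2 ⟨(hmem _).2 ⟨hc', hL⟩,
        ((hvL c' hc').symm.trans e).trans hq.2⟩)
  have h2 : R.card = C.card := Finset.card_image_of_injective _ (fun a b e => congrArg Prod.fst e)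
  have h3 : Disjoint TV R := by
    rw [Finset.disjoint_right]
    intro p hp hp'
    obtain ⟨c, hc, rfl⟩ := Finset.mem_image.1 hp
    exact (hf c hc).2.1 (Finset.mem_filter.1 hp').2
  have h4 : TV ∪ R ⊆ TE := by
    intro p hp
    rcases Finset.mem_union.1 hp with hp | hp
    · rw [Finset.mem_filter] at hp
      exact Finset.mem_filter.2 ⟨hp.1, hTa _ _ ((hmem _).1 hp.1).2 hp.2⟩
    · obtain ⟨c, hc, rfl⟩ := Finset.mem_image.1 hp
      exact Finset.mem_filter.2 ⟨(hmem _).2 ⟨hc, (hf c hc).1⟩, hTb _ _ (hf c hc).1 (hf c hc).2.2⟩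
  have h5 : TE.card ≤ (Pos.image (fun p => eg s p.1 p.2)).card := by
    refine Finset.card_le_card_of_injOn (fun p => eg s p.1 p.2) (fun p hp => ?_) ?_
    · exact Finset.mem_coe.2 (Finset.mem_image_of_mem _ (Finset.mem_filter.1 hp).1)
    · intro p hp q hq e
      have hp' := Finset.mem_filter.1 (Finset.mem_coe.1 hp)
      have hq' := Finset.mem_filter.1 (Finset.mem_coe.1 hq)
      have a := (hmem _).1 hp'.1
      have b := (hmem _).1 hq'.1
      have := h.eg_inj a.2 b.2 e
        (le_antisymm (hq'.2 _ a.1 _ a.2 e) (hp'.2 _ b.1 _ b.2 (Eq.symm e)))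
      exact Prod.ext this.1 this.2
  have h6 := Finset.card_le_card h4
  rw [Finset.card_union_of_disjoint h3] at h6
  omega

end count

end Pool.Agent.Shared.OneRelator
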