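import Mathlib
import Pool.Agent.Shared.OneRelator.WCycles

set_option autoImplicit false

/-!
A finite complex immersed in the presentation complex of a one-relator group without torsion
which has trivial first rational cohomology collapses to a forest.
-/

namespace Pool.Agent.Shared.OneRelator

open FreeGroup

variable {X Ω Θ M : Type} [MulAction (FreeGroup X) Ω] [Group M]

/-- The sign of a letter. -/
def sq (b : X × Bool) : ℚ := if b.2 then 1 else -1

/-- The relation along an edge. -/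
def Rel (ρ : FreeGroup X →* M) (ψ : Ω → M) (e : Ω × X) : Prop :=
  ψ (act e.1 (of e.2)) = ψ e.1 * ρ (of e.2)

/-- `a` is a coboundary on `E`. -/
def Cob (E : Finset (Ω × X)) (a : Ω × X → ℚ) : Prop :=
  ∃ φ : Ω → ℚ, ∀ e ∈ E, a e = φ (act e.1 (of e.2)) - φ e.1

theorem forest (ρ : FreeGroup X →* M) (E : Finset (Ω × X)) (hH : ∀ a, Cob E a) :
    ∃ ψ : Ω → M, ∀ e ∈ E, Rel ρ ψ e := by
  classical
  induction E using Finset.induction_on with
  | empty => exact ⟨fun _ => 1, by simp⟩
  | insert e E he ih =>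
    obtain ⟨ψ, hψ⟩ := ih (fun a => by
      obtain ⟨φ, hφ⟩ := hH a
      exact ⟨φ, fun e' he' => hφ e' (Finset.mem_insert_of_mem he')⟩)
    obtain ⟨φ, hφ⟩ := hH (fun e' => if e' = e then 1 else 0)
    let g : M := ψ e.1 * ρ (of e.2) * (ψ (act e.1 (of e.2)))⁻¹
    refine ⟨fun u => if φ u = φ (act e.1 (of e.2)) then g * ψ u else ψ u, fun e' he' => ?_⟩
    rcases Finset.mem_insert.1 he' with rfl | he''
    · have h1 := hφ e' he'
      simp only [if_true] at h1
      have h2 : φ e'.1 ≠ φ (act e'.1 (of e'.2)) := by intro h; rw [h] at h1; simp at h1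
      simp [Rel, h2, g]
    · have h1 := hφ e' he'
      have hne : e' ≠ e := by rintro rfl; exact he he''
      simp only [hne, if_false] at h1
      have h2 : φ (act e'.1 (of e'.2)) = φ e'.1 := by linarith
      have h3 := hψ e' he''
      simp only [Rel] at h3 ⊢
      rw [h2, h3]
      split_ifs <;> simp [mul_assoc]

variable [Inhabited X]

/-- The integral of a cochain along a path. -/
def Isum (w : List (X × Bool)) (v : Ω) (a : Ω × X → ℚ) : ℚ :=
  ∑ i ∈ Finset.range w.length, sq (ltr w i) * a (eg w v i)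

theorem rel_iff (ρ : FreeGroup X →* M) (ψ : Ω → M) {w : List (X × Bool)} {i : ℕ}
    (hi : i < w.length) (v : Ω) :
    Rel ρ ψ (eg w v i) ↔ ψ (vx w v (i + 1)) = ψ (vx w v i) * ρ (mk [ltr w i]) := by
  rw [Rel, eg_eq hi]
  dsimp only
  rw [← vx_tgt hi]
  rcases src_tgt_cases w i with ⟨h1, h2, h3⟩ | ⟨h1, h2, h3⟩
  · have : ltr w i = ((ltr w i).1, true) := Prod.ext rfl h1
    rw [h2, h3, this, mk_true]
  · have : ltr w i = ((ltr w i).1, false) := Prod.ext rfl h1
    rw [h2, h3, this, mk_false, _root_.map_inv, eq_mul_inv_iff_mul_eq, eq_comm]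

theorem rel_path (ρ : FreeGroup X →* M) (ψ : Ω → M) {w : List (X × Bool)} (v : Ω) {a k : ℕ}
    (hak : a ≤ k) (hk : k ≤ w.length) (h : ∀ i, a ≤ i → i < k → Rel ρ ψ (eg w v i)) :
    ψ (vx w v k) * ρ (pre w k)⁻¹ = ψ (vx w v a) * ρ (pre w a)⁻¹ := by
  induction k, hak using Nat.le_induction with
  | base => rfl
  | succ k hak ih =>
    rw [← ih (by omega) (fun i h1 h2 => h i h1 (by omega)),
      (rel_iff ρ ψ (by omega) v).1 (h k hak (by omega)), pre_succ (by omega)]
    simp only [_root_.map_inv, _root_.map_mul]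
    group

theorem not_all_cob [MulAction (FreeGroup X) Θ] [LinearOrder Θ] {s : List (X × Bool)} {θ : Θ}
    (h : Stack s θ) (C : Finset Ω) (hne : C.Nonempty) (E : Finset (Ω × X))
    (hC : ∀ c ∈ C, act c (mk s) = c) (hE : ∀ c ∈ C, ∀ i < s.length, eg s c i ∈ E)
    (hH : ∀ a, (∀ c ∈ C, Isum s c a = 0) → Cob E a)
    (hfree : ∀ c ∈ C, ∀ i < s.length, ∃ c' ∈ C, ∃ j < s.length,
      eg s c' j = eg s c i ∧ ¬ (c' = c ∧ j = i)) : False := by
  classical
  have hL : 0 < s.length := List.length_pos_iff.2 h.prim.ne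
  have hw := wcycles h C hC hfree
  set V := (C ×ˢ Finset.range s.length).image (fun p => vx s p.1 p.2) with hV
  set E' := (C ×ˢ Finset.range s.length).image (fun p => eg s p.1 p.2) with hE'
  have hmemV : ∀ c ∈ C, ∀ i ≤ s.length, vx s c i ∈ V := by
    intro c hc i hi
    rcases hi.lt_or_eq with h1 | rfl
    · exact Finset.mem_image.2 ⟨(c, i), by simp [hc, h1], rfl⟩
    · refine Finset.mem_image.2 ⟨(c, 0), by simp [hc, hL], ?_⟩
      simp [vx, hC c hc]
  obtain ⟨c₀, hc₀⟩ := hne
  have hv₀ : vx s c₀ 0 ∈ V := hmemV c₀ hc₀ 0 (Nat.zero_le _)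
  set v₀ := vx s c₀ 0
  let V' := V.erase v₀
  let extE : (E' → ℚ) →ₗ[ℚ] (Ω × X → ℚ) :=
    LinearMap.pi fun e => if he : e ∈ E' then LinearMap.proj (⟨e, he⟩ : E') else 0
  let extV : (V' → ℚ) →ₗ[ℚ] (Ω → ℚ) :=
    LinearMap.pi fun v => if hv : v ∈ V' then LinearMap.proj (⟨v, hv⟩ : V') else 0
  let d₁ : (Ω × X → ℚ) →ₗ[ℚ] (C → ℚ) :=
    { toFun := fun a c => Isum s c.1 a
      map_add' := fun a b => by
        funext c; simp [Isum, mul_add, Finset.sum_add_distrib]
      map_smul' := fun r a => by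
        funext c; simp [Isum, Finset.mul_sum, mul_left_comm] }
  let d₀ : (Ω → ℚ) →ₗ[ℚ] (E' → ℚ) :=
    { toFun := fun φ e => φ (act e.1.1 (of e.1.2)) - φ e.1.1
      map_add' := fun a b => by funext e; simp; ring
      map_smul' := fun r a => by funext e; simp; ring }
  have hle : LinearMap.ker (d₁ ∘ₗ extE) ≤ LinearMap.range (d₀ ∘ₗ extV) := by
    intro a ha
    obtain ⟨φ, hφ⟩ := hH (extE a) (fun c hc => congrFun (LinearMap.mem_ker.1 ha) ⟨c, hc⟩)
    refine ⟨fun v => φ v.1 - φ v₀, ?_⟩
    have hx : ∀ v ∈ V, extV (fun v : V' => φ v.1 - φ v₀) v = φ v - φ v₀ := by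
      intro v hv
      simp only [extV, LinearMap.pi_apply]
      split_ifs with h1
      · rfl
      · have : v = v₀ := by
          by_contra h2
          exact h1 (Finset.mem_erase.2 ⟨h2, hv⟩)
        simp [this]
    funext e
    obtain ⟨e, he⟩ := e
    obtain ⟨p, hp, rfl⟩ := Finset.mem_image.1 he
    have hp' : p.1 ∈ C ∧ p.2 < s.length := by simpa using hp
    have h1 := hφ _ (hE _ hp'.1 _ hp'.2)
    have h2 : extE a (eg s p.1 p.2) = a ⟨_, he⟩ := by
      simp only [extE, LinearMap.pi_apply, dif_pos he]; rfl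
    have hs : src s p.2 ≤ s.length ∧ tgt s p.2 ≤ s.length := by
      rcases src_tgt_cases s p.2 with ⟨-, h1, h2⟩ | ⟨-, h1, h2⟩ <;> omega
    have h3 : (eg s p.1 p.2).1 ∈ V := by rw [eg_eq hp'.2]; exact hmemV _ hp'.1 _ hs.1
    have h4 : act (eg s p.1 p.2).1 (of (eg s p.1 p.2).2) ∈ V := by
      rw [eg_eq hp'.2]; dsimp only; rw [← vx_tgt hp'.2]; exact hmemV _ hp'.1 _ hs.2
    change extV _ (act (eg s p.1 p.2).1 (of (eg s p.1 p.2).2)) - extV _ (eg s p.1 p.2).1 = _
    rw [hx _ h3, hx _ h4, ← h2, h1]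
    ring
  have h1 := Submodule.finrank_mono hle
  have h2 := LinearMap.finrank_range_le (d₀ ∘ₗ extV)
  have h3 := LinearMap.finrank_range_add_finrank_ker (d₁ ∘ₗ extE)
  have h4 := Submodule.finrank_le (LinearMap.range (d₁ ∘ₗ extE))
  simp only [Module.finrank_fintype_fun_eq_card, Fintype.card_coe] at h2 h3 h4
  have h5 : V'.card + 1 = V.card := Finset.card_erase_add_one hv₀
  omega

theorem collapse [MulAction (FreeGroup X) Θ] [LinearOrder Θ] {s : List (X × Bool)} {θ : Θ}
    (h : Stack s θ) (ρ : FreeGroup X →* M) (hρ : ρ (mk s) = 1) :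
    ∀ (n : ℕ) (C : Finset Ω) (E : Finset (Ω × X)), C.card = n →
      (∀ c ∈ C, act c (mk s) = c) → (∀ c ∈ C, ∀ i < s.length, eg s c i ∈ E) →
      (∀ a, (∀ c ∈ C, Isum s c a = 0) → Cob E a) → ∃ ψ : Ω → M, ∀ e ∈ E, Rel ρ ψ e := by
  classical
  intro n
  induction n with
  | zero =>
    intro C E hn _ _ hH
    rw [Finset.card_eq_zero] at hn
    subst hn
    exact forest ρ E (fun a => hH a (by simp))
  | succ n ih =>
    intro C E hn hC hE hH
    have hne : C.Nonempty := Finset.card_pos.1 (by omega)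
    have hfree : ∃ c ∈ C, ∃ i < s.length, ∀ c' ∈ C, ∀ j < s.length,
        eg s c' j = eg s c i → c' = c ∧ j = i := by
      by_contra hcon
      push Not at hcon
      refine not_all_cob h C hne E hC hE hH (fun c hc i hi => ?_)
      obtain ⟨c', h1, j, h2, h3, h4⟩ := hcon c hc i hi
      exact ⟨c', h1, j, h2, h3, fun h5 => h4 h5.1 h5.2⟩
    obtain ⟨c, hc, i, hi, hfree⟩ := hfree
    obtain ⟨ψ, hψ⟩ := ih (C.erase c) (E.erase (eg s c i)) (by rw [Finset.card_erase_of_mem hc]; omega)
      (fun c' hc' => hC c' (Finset.mem_of_mem_erase hc'))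
      (fun c' hc' j hj => Finset.mem_erase.2 ⟨fun e => (Finset.mem_erase.1 hc').1
        (hfree c' (Finset.mem_of_mem_erase hc') j hj e).1, hE c' (Finset.mem_of_mem_erase hc') j hj⟩)
      (fun a ha => by
        let y : ℚ := -sq (ltr s i) *
          ∑ j ∈ (Finset.range s.length).erase i, sq (ltr s j) * a (eg s c j)
        obtain ⟨φ, hφ⟩ := hH (Function.update a (eg s c i) y) (fun c' hc' => by
          by_cases hcc : c' = c
          · subst hcc
            rw [Isum, ← Finset.add_sum_erase _ _ (Finset.mem_range.2 hi), Function.update_self]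
            have h1 : ∑ j ∈ (Finset.range s.length).erase i,
                sq (ltr s j) * Function.update a (eg s c' i) y (eg s c' j) =
                ∑ j ∈ (Finset.range s.length).erase i, sq (ltr s j) * a (eg s c' j) := by
              refine Finset.sum_congr rfl (fun j hj => ?_)
              rw [Finset.mem_erase, Finset.mem_range] at hj
              rw [Function.update_of_ne (fun e => hj.1 (hfree c' hc' j hj.2 e).2)]
            have h2 : sq (ltr s i) * sq (ltr s i) = 1 := by unfold sq; split_ifs <;> norm_num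
            rw [h1]
            simp only [y]
            linear_combination (-∑ j ∈ (Finset.range s.length).erase i,
              sq (ltr s j) * a (eg s c' j)) * h2
          · rw [← ha c' (Finset.mem_erase.2 ⟨hcc, hc'⟩), Isum, Isum]
            refine Finset.sum_congr rfl (fun j hj => ?_)
            rw [Function.update_of_ne (fun e => hcc (hfree c' hc' j (Finset.mem_range.1 hj) e).1)])
        refine ⟨φ, fun e he => ?_⟩
        rw [← hφ e (Finset.mem_of_mem_erase he), Function.update_of_ne (Finset.mem_erase.1 he).1])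
    refine ⟨ψ, fun e he => ?_⟩
    by_cases hei : e = eg s c i
    · subst hei
      have hrel : ∀ j < s.length, j ≠ i → Rel ρ ψ (eg s c j) := fun j hj hji =>
        hψ _ (Finset.mem_erase.2 ⟨fun e => hji (hfree c hc j hj e).2, hE c hc j hj⟩)
      have h1 := rel_path ρ ψ (w := s) c (Nat.zero_le i) hi.le
        (fun j _ h2 => hrel j (by omega) (by omega))
      have h2 := rel_path ρ ψ (w := s) c (a := i + 1) (k := s.length) hi le_rfl
        (fun j h1 h2 => hrel j h2 (by omega))
      rw [rel_iff ρ ψ hi]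
      have h3 : vx s c s.length = vx s c 0 := by simp [vx, hC c hc]
      rw [h3, pre_length, _root_.map_inv, hρ, pre_succ hi] at h2
      rw [pre_zero] at h1
      simp only [inv_one, mul_one, _root_.map_one, mul_inv_rev, _root_.map_mul,
        _root_.map_inv] at h1 h2
      rw [← h1, ← mul_assoc, mul_left_inj, eq_mul_inv_iff_mul_eq] at h2
      exact h2.symm
    · exact hψ e (Finset.mem_erase.2 ⟨hei, he⟩)

end Pool.Agent.Shared.OneRelator
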