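import Mathlib

set_option autoImplicit false

/-!
The Magnus embedding of a free group into noncommutative power series, and a conjugation
invariant linear order on a free group.
-/

namespace Pool.Agent.Shared.OneRelator

open FreeGroup

variable {X : Type}

/-- Noncommutative power series with integer coefficients. -/
def Ser (X : Type) : Type := List X → ℤ

/-- The product of two series. -/
def smul' : (List X → ℤ) → (List X → ℤ) → List X → ℤ
  | f, g, [] => f [] * g []
  | f, g, x :: l => f [] * g (x :: l) + smul' (fun l => f (x :: l)) g l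

/-- The unit series. -/
def sone : List X → ℤ
  | [] => 1
  | _ :: _ => 0

theorem smul'_add_left (f f' g : List X → ℤ) (l : List X) :
    smul' (fun l => f l + f' l) g l = smul' f g l + smul' f' g l := by
  induction l generalizing f f' with
  | nil => simp only [smul']; ring
  | cons x l ih => simp only [smul']; rw [ih]; ring

theorem smul'_add_right (f g g' : List X → ℤ) (l : List X) :
    smul' f (fun l => g l + g' l) l = smul' f g l + smul' f g' l := by
  induction l generalizing f with
  | nil => simp only [smul']; ring
  | cons x l ih => simp only [smul']; rw [ih]; ring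

theorem smul'_const_left (c : ℤ) (f g : List X → ℤ) (l : List X) :
    smul' (fun l => c * f l) g l = c * smul' f g l := by
  induction l generalizing f with
  | nil => simp only [smul']; ring
  | cons x l ih => simp only [smul']; rw [ih]; ring

theorem smul'_zero_left (g : List X → ℤ) (l : List X) : smul' (fun _ => 0) g l = 0 := by
  simpa using smul'_const_left 0 g g l

theorem smul'_one_left (g : List X → ℤ) (l : List X) : smul' sone g l = g l := by
  cases l with
  | nil => simp [smul', sone]
  | cons x l => simp [smul', sone, smul'_zero_left]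

theorem smul'_one_right (f : List X → ℤ) (l : List X) : smul' f sone l = f l := by
  induction l generalizing f with
  | nil => simp [smul', sone]
  | cons x l ih => simp [smul', sone, ih]

theorem smul'_assoc (f g h : List X → ℤ) (l : List X) :
    smul' (smul' f g) h l = smul' f (smul' g h) l := by
  induction l generalizing f g with
  | nil => simp only [smul']; ring
  | cons x l ih =>
    simp only [smul']
    rw [smul'_add_left, smul'_const_left, ih]
    ring

instance : Monoid (Ser X) where
  mul := smul'
  one := sone
  mul_assoc f g h := funext (smul'_assoc f g h)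
  one_mul f := funext (smul'_one_left f)
  mul_one f := funext (smul'_one_right f)

theorem mul_nil (f g : Ser X) : (f * g) [] = f [] * g [] := rfl

theorem mul_cons (f g : Ser X) (x : X) (l : List X) :
    (f * g) (x :: l) = f [] * g (x :: l) + smul' (fun l => f (x :: l)) g l := rfl

theorem smul'_low_left {f g : List X → ℤ} {n : ℕ} (hg : ∀ l, l.length < n → g l = 0)
    (l : List X) (hl : l.length ≤ n) : smul' f g l = f [] * g l := by
  induction l generalizing f with
  | nil => rfl
  | cons x l ih =>
    simp only [smul']
    rw [ih (by simp at hl; omega), hg l (by simp at hl; omega)]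
    ring

theorem smul'_low_right {f g : List X → ℤ} {n : ℕ} (hf : ∀ l, l.length < n → f l = 0)
    (l : List X) (hl : l.length ≤ n) : smul' f g l = f l * g [] := by
  induction l generalizing f n with
  | nil => rfl
  | cons x l ih =>
    simp only [smul']
    obtain ⟨n, rfl⟩ : ∃ m, n = m + 1 := ⟨n - 1, by simp at hl; omega⟩
    rw [hf [] (by simp), ih (n := n) (fun l' hl' => hf _ (by simp; omega)) (by simpa using hl)]
    ring

section
variable [DecidableEq X]

/-- The series `1 + x`. -/
def ex (x : X) : List X → ℤ
  | [] => 1
  | y :: l => if y = x then sone l else 0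

/-- The series `1 - x + x ^ 2 - ...`. -/
def ix (x : X) : List X → ℤ
  | [] => 1
  | y :: l => if y = x then -ix x l else 0

theorem smul'_ex_cons (x y : X) (f : List X → ℤ) (l : List X) :
    smul' (ex x) f (y :: l) = f (y :: l) + if y = x then f l else 0 := by
  by_cases h : y = x
  · simp only [smul', ex, h, if_true, one_mul]
    rw [smul'_one_left]
  · simp only [smul', ex, h, if_false, one_mul]
    rw [smul'_zero_left]

theorem smul'_ix_cons (x y : X) (f : List X → ℤ) (l : List X) :
    smul' (ix x) f (y :: l) = f (y :: l) + if y = x then -smul' (ix x) f l else 0 := by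
  by_cases h : y = x
  · simp only [smul', ix, h, if_true, one_mul]
    have := smul'_const_left (-1) (ix x) f l
    simp only [neg_mul, one_mul] at this
    rw [this]
  · simp only [smul', ix, h, if_false, one_mul]
    rw [smul'_zero_left]

/-- The unit `1 + x`. -/
def ux (x : X) : (Ser X)ˣ where
  val := ex x
  inv := ix x
  val_inv := by
    funext l
    change smul' (ex x) (ix x) l = sone l
    cases l with
    | nil => rfl
    | cons y l => rw [smul'_ex_cons]; by_cases h : y = x <;> simp [ix, sone, h]
  inv_val := by
    funext l
    change smul' (ix x) (ex x) l = sone l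
    induction l with
    | nil => rfl
    | cons y l ih => rw [smul'_ix_cons, ih]; by_cases h : y = x <;> simp [ex, sone, h]

/-- The Magnus homomorphism. -/
def magnus : FreeGroup X →* (Ser X)ˣ := FreeGroup.lift ux

/-- The Magnus series of a group element. -/
def mg (g : FreeGroup X) : List X → ℤ := (magnus g).val

theorem mg_mul (g h : FreeGroup X) : mg (g * h) = smul' (mg g) (mg h) := by
  unfold mg; rw [_root_.map_mul]; rfl

theorem mg_one : mg (1 : FreeGroup X) = sone := by unfold mg; rw [_root_.map_one]; rfl

theorem mg_cons (b : X × Bool) (w : List (X × Bool)) :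
    mg (mk (b :: w)) = smul' (if b.2 then ex b.1 else ix b.1) (mg (mk w)) := by
  have : mk (b :: w) = mk [b] * mk w := rfl
  rw [this, mg_mul]
  congr 1
  obtain ⟨x, _ | _⟩ := b
  · have : mk [(x, false)] = (of x)⁻¹ := rfl
    rw [this]; unfold mg magnus; rw [_root_.map_inv, lift_apply_of]; rfl
  · have : mk [(x, true)] = of x := rfl
    rw [this]; unfold mg magnus; rw [lift_apply_of]; rfl

theorem mg_nil (g : FreeGroup X) : mg g [] = 1 := by
  obtain ⟨w, rfl⟩ : ∃ w, mk w = g := ⟨g.toWord, mk_toWord⟩
  induction w with
  | nil => exact congrFun mg_one []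
  | cons b w ih =>
    rw [mg_cons]
    obtain ⟨x, _ | _⟩ := b <;> simp [smul', ih, ex, ix]

/-- Words without two equal adjacent letters. -/
def Alt (l : List X) : Prop := l.IsChain (· ≠ ·)

/-- The sign of a letter. -/
def sg (b : X × Bool) : ℤ := if b.2 then 1 else -1

theorem mg_cons_ne (b : X × Bool) (w : List (X × Bool)) {l : List X} (hl : l.head? ≠ some b.1) :
    mg (mk (b :: w)) l = mg (mk w) l := by
  cases l with
  | nil => rw [mg_nil, mg_nil]
  | cons y l =>
    have hy : y ≠ b.1 := by simpa using hl
    rw [mg_cons]
    obtain ⟨x, _ | _⟩ := b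
    · simp only [Bool.false_eq_true, if_false]; rw [smul'_ix_cons]; simp [hy]
    · simp only [if_true]; rw [smul'_ex_cons]; simp [hy]

theorem mg_cons_eq (b : X × Bool) (w : List (X × Bool)) {l : List X} (hl : l.head? ≠ some b.1) :
    mg (mk (b :: w)) (b.1 :: l) = mg (mk w) (b.1 :: l) + sg b * mg (mk w) l := by
  have h := mg_cons_ne b w hl
  rw [mg_cons] at h ⊢
  obtain ⟨x, _ | _⟩ := b
  · simp only [Bool.false_eq_true, if_false] at h ⊢
    rw [smul'_ix_cons, h]; simp [sg]
  · simp only [if_true]; rw [smul'_ex_cons]; simp [sg]

omit [DecidableEq X] in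
theorem Alt.head_ne {y : X} {l : List X} (h : Alt (y :: l)) : l.head? ≠ some y := by
  cases l with
  | nil => simp
  | cons z l =>
    have := (List.isChain_cons_cons.1 h).1
    simpa using this.symm

omit [DecidableEq X] in
theorem Alt.tail {y : X} {l : List X} (h : Alt (y :: l)) : Alt l := List.IsChain.tail h

theorem magnus_aux (b : X × Bool) (w : List (X × Bool)) (hw : IsReduced (b :: w)) :
    ∃ a : List X, Alt (b.1 :: a) ∧
      0 < sg b * mg (mk (b :: w)) (b.1 :: a) * mg (mk (b :: w)) a ∧
      (∀ l, Alt l → a.length + 1 < l.length → mg (mk (b :: w)) l = 0) ∧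
      (∀ l, Alt l → a.length + 1 ≤ l.length → l.head? ≠ some b.1 → mg (mk (b :: w)) l = 0) := by
  have hsg : ∀ b : X × Bool, sg b * sg b = 1 := fun b => by unfold sg; split_ifs <;> norm_num
  induction w generalizing b with
  | nil =>
    have h0 : ∀ l : List X, l ≠ [] → mg (mk ([] : List (X × Bool))) l = 0 := by
      intro l hl
      have : mk ([] : List (X × Bool)) = 1 := rfl
      rw [this, mg_one]
      cases l with
      | nil => exact absurd rfl hl
      | cons => rfl
    refine ⟨[], List.isChain_singleton _, ?_, ?_, ?_⟩
    · rw [mg_cons_eq b [] (by simp), h0 _ (by simp), mg_nil, mg_nil]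
      simp [hsg]
    · intro l hl hlen
      cases l with
      | nil => simp at hlen
      | cons y l =>
        by_cases hy : y = b.1
        · subst hy
          rw [mg_cons_eq b [] hl.head_ne, h0 _ (by simp), h0 _ (by rintro rfl; simp at hlen)]
          simp
        · rw [mg_cons_ne b [] (by simpa using hy), h0 _ (by simp)]
    · intro l _ hlen hne
      rw [mg_cons_ne b [] hne, h0 _ (by rintro rfl; simp at hlen)]
  | cons c w ih =>
    obtain ⟨hbc, hw'⟩ := isReduced_cons_cons.1 hw
    obtain ⟨a, ha, hpos, h1, h2⟩ := ih c hw'
    by_cases hx : b.1 = c.1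
    · have hbc' : b = c := Prod.ext hx (hbc hx)
      subst hbc'
      refine ⟨a, ha, ?_, ?_, ?_⟩
      · rw [mg_cons_eq b _ ha.head_ne, mg_cons_ne b (b :: w) ha.head_ne]
        have hq : mg (mk (b :: w)) a ≠ 0 := by
          intro h; rw [h] at hpos; simp at hpos
        have : 0 < mg (mk (b :: w)) a * mg (mk (b :: w)) a := mul_self_pos.2 hq
        have h3 := hsg b
        calc 0 < sg b * mg (mk (b :: w)) (b.1 :: a) * mg (mk (b :: w)) a +
            (sg b * sg b) * (mg (mk (b :: w)) a * mg (mk (b :: w)) a) := by rw [h3]; linarith
          _ = _ := by ring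
      · intro l hl hlen
        cases l with
        | nil => simp at hlen
        | cons y l =>
          by_cases hy : y = b.1
          · subst hy
            rw [mg_cons_eq b _ hl.head_ne, h1 _ hl hlen,
              h2 _ hl.tail (by simp at hlen; omega) hl.head_ne]
            simp
          · rw [mg_cons_ne b _ (by simpa using hy), h1 _ hl hlen]
      · intro l hl hlen hne
        rw [mg_cons_ne b _ hne, h2 l hl hlen hne]
    · have ha' : Alt (b.1 :: c.1 :: a) := List.isChain_cons_cons.2 ⟨hx, ha⟩
      refine ⟨c.1 :: a, ha', ?_, ?_, ?_⟩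
      · rw [mg_cons_eq b _ ha'.head_ne, mg_cons_ne b (c :: w) ha'.head_ne, h1 _ ha' (by simp)]
        have hq : mg (mk (c :: w)) (c.1 :: a) ≠ 0 := by
          intro h; rw [h] at hpos; simp at hpos
        have : 0 < mg (mk (c :: w)) (c.1 :: a) * mg (mk (c :: w)) (c.1 :: a) := mul_self_pos.2 hq
        have h3 := hsg b
        calc 0 < (sg b * sg b) * (mg (mk (c :: w)) (c.1 :: a) * mg (mk (c :: w)) (c.1 :: a)) := by
              rw [h3]; linarith
          _ = _ := by ring
      · intro l hl hlen
        cases l with
        | nil => simp at hlen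
        | cons y l =>
          by_cases hy : y = b.1
          · subst hy
            rw [mg_cons_eq b _ hl.head_ne, h1 _ hl (by simp at hlen ⊢; omega),
              h1 _ hl.tail (by simp at hlen; omega)]
            simp
          · rw [mg_cons_ne b _ (by simpa using hy), h1 _ hl (by simp at hlen ⊢; omega)]
      · intro l hl hlen hne
        rw [mg_cons_ne b _ hne, h1 l hl (by simp at hlen; omega)]

theorem mg_injective : Function.Injective (mg : FreeGroup X → List X → ℤ) := by
  have h : Function.Injective (magnus : FreeGroup X →* (Ser X)ˣ) := by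
    rw [injective_iff_map_eq_one]
    intro g hg
    have h1 : mg g = sone := by unfold mg; rw [hg]; rfl
    have hred : IsReduced g.toWord := isReduced_toWord
    rw [← mk_toWord (x := g)] at h1 ⊢
    generalize g.toWord = w at h1 hred
    cases w with
    | nil => rfl
    | cons b w =>
      obtain ⟨a, -, hpos, -⟩ := magnus_aux b w hred
      rw [h1] at hpos
      simp [sone] at hpos
  intro g g' hg
  exact h (Units.ext hg)

end

/-- A free group on a countable set has a strict total order invariant under conjugation. -/
theorem exists_conj_order [Countable X] :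
    ∃ r : FreeGroup X → FreeGroup X → Prop, IsStrictTotalOrder _ r ∧
      ∀ g a b, r a b → r (g * a * g⁻¹) (g * b * g⁻¹) := by
  classical
  obtain ⟨enc, henc⟩ := exists_injective_nat (List X)
  let key : List X → ℕ ×ₗ ℕ := fun l => toLex (l.length, enc l)
  have hkey : Function.Injective key := fun l l' h => henc (congrArg (fun p => (ofLex p).2) h)
  have hlen : ∀ l l', key l' < key l → l'.length ≤ l.length := by
    intro l l' h
    rcases Prod.Lex.toLex_lt_toLex.1 h with h | h
    exacts [h.le, h.1.le]
  have hlen' : ∀ l l', l'.length < l.length → key l' < key l := fun l l' h =>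
    Prod.Lex.toLex_lt_toLex.2 (Or.inl h)
  let r : FreeGroup X → FreeGroup X → Prop := fun a b =>
    ∃ l, mg a l < mg b l ∧ ∀ l', key l' < key l → mg a l' = mg b l'
  have htri : ∀ a b, r a b ∨ a = b ∨ r b a := by
    intro a b
    by_cases hab : a = b
    · exact Or.inr (Or.inl hab)
    have hne : ∃ l, mg a l ≠ mg b l := by
      by_contra h
      push Not at h
      exact hab (mg_injective (funext h))
    have wf : WellFounded (InvImage (· < ·) key) := InvImage.wf key wellFounded_lt
    obtain ⟨l, hl, hmin⟩ := wf.has_min {l | mg a l ≠ mg b l} hne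
    have h2 : ∀ l', key l' < key l → mg a l' = mg b l' := by
      intro l' h
      by_contra h3
      exact hmin l' h3 h
    rcases lt_or_gt_of_ne hl with h | h
    · exact Or.inl ⟨l, h, h2⟩
    · exact Or.inr (Or.inr ⟨l, h, fun l' h' => (h2 l' h').symm⟩)
  have hirr : ∀ a, ¬ r a a := fun a ⟨l, h, _⟩ => lt_irrefl _ h
  have htr : ∀ a b c, r a b → r b c → r a c := by
    rintro a b c ⟨l, h1, h2⟩ ⟨l', h3, h4⟩
    rcases lt_trichotomy (key l) (key l') with h | h | h
    · exact ⟨l, by rw [← h4 l h]; exact h1, fun m hm => (h2 m hm).trans (h4 m (hm.trans h))⟩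
    · obtain rfl := hkey h
      exact ⟨l, h1.trans h3, fun m hm => (h2 m hm).trans (h4 m hm)⟩
    · exact ⟨l', by rw [h2 l' h]; exact h3, fun m hm => (h2 m (hm.trans h)).trans (h4 m hm)⟩
  refine ⟨r, { trichotomous := ?_, irrefl := hirr, trans := htr }, ?_⟩
  · intro a b h1 h2
    rcases htri a b with h | h | h
    exacts [absurd h h1, h, absurd h h2]
  · rintro g a b ⟨l, h1, h2⟩
    have key2 : ∀ m : List X, m.length ≤ l.length →
        mg (g * b * g⁻¹) m = mg (g * a * g⁻¹) m + (mg b m - mg a m) := by
      intro m hm
      have hb : mg b = fun m => mg a m + (mg b m - mg a m) := by funext m; ring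
      have hz : ∀ m : List X, m.length < l.length → mg b m - mg a m = 0 := fun m hm => by
        rw [h2 m (hlen' _ _ hm), sub_self]
      have h3 : smul' (mg g) (mg b) = fun m => smul' (mg g) (mg a) m +
          smul' (mg g) (fun m => mg b m - mg a m) m := by
        funext m; rw [← smul'_add_right, ← hb]
      have h4 : ∀ m : List X, m.length ≤ l.length →
          smul' (mg g) (fun m => mg b m - mg a m) m = mg b m - mg a m := fun m hm => by
        rw [smul'_low_left hz m hm, mg_nil, one_mul]
      rw [mg_mul, mg_mul, mg_mul, mg_mul, h3, smul'_add_left,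
        smul'_low_right (f := smul' (mg g) fun m => mg b m - mg a m) (n := l.length) (fun m hm => by rw [h4 m hm.le, hz m hm]) m hm,
        mg_nil, mul_one, h4 m hm]
    refine ⟨l, ?_, fun m hm => ?_⟩
    · rw [key2 l le_rfl]; linarith
    · rw [key2 m (hlen _ _ hm), h2 m hm]; simp

end Pool.Agent.Shared.OneRelator
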