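import Mathlib
import Pool.Agent.Shared.OneRelator.Magnus
import Pool.Agent.Shared.OneRelator.Collapse
import Pool.Agent.Shared.StallingsSwan.Defs

set_option autoImplicit false

/-!
One-relator groups whose relator is not a proper power are locally indicable (Brodskii, Howie).
-/

namespace Pool.Agent.Shared.OneRelator

open FreeGroup Pool.Agent.Shared.StallingsSwan

variable {X Ω M : Type} [MulAction (FreeGroup X) Ω] [Group M]

/-- Moving along an edge and adding the value of the cochain. -/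
def shift (a : Ω × X → ℚ) (x : X) : Equiv.Perm (Ω × ℚ) where
  toFun p := (act p.1 (of x), p.2 + a (p.1, x))
  invFun p := (act p.1 (of x)⁻¹, p.2 - a (act p.1 (of x)⁻¹, x))
  left_inv p := by simp [← act_mul]
  right_inv p := by simp [← act_mul]

/-- The integral of a cochain along a group element. -/
def Jn (a : Ω × X → ℚ) (v : Ω) (g : FreeGroup X) : ℚ :=
  ((FreeGroup.lift (fun x => (shift a x)⁻¹) g)⁻¹ (v, 0)).2

theorem lift_shift (a : Ω × X → ℚ) (g : FreeGroup X) : ∀ (v : Ω) (q : ℚ),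
    (FreeGroup.lift (fun x => (shift a x)⁻¹) g)⁻¹ (v, q) = (act v g, q + Jn a v g) := by
  unfold Jn
  induction g using FreeGroup.induction_on with
  | C1 => intro v q; simp
  | of x => intro v q; simp [shift]
  | inv_of x _ =>
    intro v q
    simp only [_root_.map_inv, lift_apply_of, inv_inv]
    change (act v (of x)⁻¹, q - _) = (_, q + (0 - _))
    simp [sub_eq_add_neg]
  | mul g h ihg ihh =>
    intro v q
    simp only [_root_.map_mul, mul_inv_rev, Equiv.Perm.mul_apply]
    rw [ihg, ihh, ihg v 0, ihh (act v g) (0 + _), act_mul]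
    simp [add_assoc]

theorem Jn_one (a : Ω × X → ℚ) (v : Ω) : Jn a v 1 = 0 := by simp [Jn]

theorem Jn_mul (a : Ω × X → ℚ) (v : Ω) (g h : FreeGroup X) :
    Jn a v (g * h) = Jn a v g + Jn a (act v g) h := by
  have := lift_shift a (g * h) v 0
  rw [_root_.map_mul, mul_inv_rev, Equiv.Perm.mul_apply, lift_shift, lift_shift] at this
  have := congrArg Prod.snd this
  simpa using this.symm

theorem Jn_of (a : Ω × X → ℚ) (v : Ω) (x : X) : Jn a v (of x) = a (v, x) := by simp [Jn, shift]

theorem Jn_letter (a : Ω × X → ℚ) (v : Ω) (b : X × Bool) :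
    Jn a v (mk [b]) = sq b * a (ed v b) := by
  obtain ⟨x, _ | _⟩ := b
  · have := Jn_mul a v (of x)⁻¹ (of x)
    rw [inv_mul_cancel, Jn_one, Jn_of] at this
    simp only [mk_false, sq, ed, Bool.false_eq_true, if_false]
    linarith
  · simp [mk_true, sq, ed, Jn_of]

theorem Jn_mk [Inhabited X] (a : Ω × X → ℚ) (v : Ω) (w : List (X × Bool)) :
    Jn a v (mk w) = Isum w v a := by
  have : ∀ k ≤ w.length, Jn a v (pre w k) =
      ∑ i ∈ Finset.range k, sq (ltr w i) * a (eg w v i) := by
    intro k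
    induction k with
    | zero => intro _; simp [Jn_one]
    | succ k ih =>
      intro hk
      rw [pre_succ hk, Jn_mul, ih (by omega), Finset.sum_range_succ, Jn_letter]
      rfl
  simpa [Isum] using this _ le_rfl

/-- The subgroup generated by finitely many conjugates. -/
def conjs (r : FreeGroup X) (U : Finset (FreeGroup X)) : Subgroup (FreeGroup X) :=
  Subgroup.closure ((fun u => u * r * u⁻¹) '' U)

theorem conjs_mono (r : FreeGroup X) {U V : Finset (FreeGroup X)} (h : U ⊆ V) :
    conjs r U ≤ conjs r V :=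
  Subgroup.closure_mono (Set.image_mono h)

theorem exists_conjs {r g : FreeGroup X} (hg : g ∈ Subgroup.normalClosure {r}) :
    ∃ U, g ∈ conjs r U := by
  classical
  induction hg using Subgroup.closure_induction with
  | mem x hx =>
    obtain ⟨a, ha, hx'⟩ := Group.mem_conjugatesOfSet_iff.1 hx
    rw [Set.mem_singleton_iff] at ha
    subst ha
    obtain ⟨u, rfl⟩ := isConj_iff.1 hx'
    exact ⟨{u}, Subgroup.subset_closure ⟨u, by simp, rfl⟩⟩
  | one => exact ⟨∅, one_mem _⟩
  | mul x y _ _ hx hy =>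
    obtain ⟨U, hU⟩ := hx
    obtain ⟨V, hV⟩ := hy
    exact ⟨U ∪ V, mul_mem (conjs_mono r Finset.subset_union_left hU)
      (conjs_mono r Finset.subset_union_right hV)⟩
  | inv x _ hx =>
    obtain ⟨U, hU⟩ := hx
    exact ⟨U, inv_mem hU⟩

theorem trivial_of_no_hom [Countable X] {s : List (X × Bool)} (hs : Prim s)
    (ρ : FreeGroup X →* M) (hρ : ρ (mk s) = 1) {T : Type} [Fintype T] (h : T → FreeGroup X)
    (U : Finset (FreeGroup X))
    (hU : ∀ α : FreeGroup X → ℚ, AddOn (Subgroup.closure (Set.range h) ⊔ conjs (mk s) U) α →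
      (∀ g ∈ conjs (mk s) U, α g = 0) → ∀ t, α (h t) = 0) (t : T) : ρ (h t) = 1 := by
  classical
  have : Inhabited X := ⟨(s.head hs.ne).1⟩
  obtain ⟨r, hr, hconj⟩ := exists_conj_order (X := X)
  let _ : LinearOrder (ConjAct (FreeGroup X)) := @linearOrderOfSTO (FreeGroup X) r hr _
  let θ : ConjAct (FreeGroup X) := mk s
  let _ : MulAction (FreeGroup X) (ConjAct (FreeGroup X)) :=
    { smul := fun g a => (g * (ConjAct.ofConjAct a) * g⁻¹ : FreeGroup X)
      one_smul := fun a => by
        change (1 * (ConjAct.ofConjAct a) * 1⁻¹ : FreeGroup X) = ConjAct.ofConjAct a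
        simp
      mul_smul := fun g g' a => by
        change (g * g' * (ConjAct.ofConjAct a) * (g * g')⁻¹ : FreeGroup X) =
          (g * (g' * (ConjAct.ofConjAct a) * g'⁻¹) * g⁻¹ : FreeGroup X)
        group }
  have hstack : Stack s θ := by
    refine ⟨hs, fun g a b hab => ?_, ?_, fun i j hi hj e => hs.conj_injective hi hj ?_⟩
    · rcases hab.eq_or_lt with rfl | hab
      · exact le_rfl
      · exact le_of_lt (hconj g⁻¹ _ _ hab)
    · change ((mk s)⁻¹ * mk s * (mk s)⁻¹⁻¹ : FreeGroup X) = mk s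
      group
    · have e' : ((pre s i)⁻¹ * mk s * (pre s i)⁻¹⁻¹ : FreeGroup X) =
        (pre s j)⁻¹ * mk s * (pre s j)⁻¹⁻¹ := e
      simpa only [inv_inv, pre] using e'
  set J := Subgroup.closure (Set.range h) ⊔ conjs (mk s) U with hJ
  let b : FreeGroup X ⧸ J := ((1 : FreeGroup X) : FreeGroup X ⧸ J)
  have hb : ∀ g : FreeGroup X, act b g = b ↔ g ∈ J := by
    intro g
    change ((g⁻¹ * 1 : FreeGroup X) : FreeGroup X ⧸ J) = ((1 : FreeGroup X) : FreeGroup X ⧸ J) ↔ _
    rw [QuotientGroup.eq]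
    simp
  have hsurj : ∀ v : FreeGroup X ⧸ J, ∃ g : FreeGroup X, act b g = v := by
    intro v
    obtain ⟨g, rfl⟩ := QuotientGroup.mk_surjective v
    refine ⟨g⁻¹, ?_⟩
    change ((g⁻¹⁻¹ * 1 : FreeGroup X) : FreeGroup X ⧸ J) = _
    simp
  have hUJ : ∀ u ∈ U, u * mk s * u⁻¹ ∈ J := fun u hu =>
    Subgroup.mem_sup_right (Subgroup.subset_closure ⟨u, hu, rfl⟩)
  have hhJ : ∀ t, h t ∈ J := fun t => Subgroup.mem_sup_left (Subgroup.subset_closure ⟨t, rfl⟩)
  let C : Finset (FreeGroup X ⧸ J) := U.image (act b)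
  have hC : ∀ c ∈ C, act c (mk s) = c := by
    intro c hc
    obtain ⟨u, hu, rfl⟩ := Finset.mem_image.1 hc
    have : u * mk s = u * mk s * u⁻¹ * u := by group
    rw [← act_mul, this, act_mul, (hb _).2 (hUJ u hu)]
  let E : Finset ((FreeGroup X ⧸ J) × X) :=
    (C ×ˢ Finset.range s.length).image (fun p => eg s p.1 p.2) ∪
      (Finset.range (h t).toWord.length).image (eg (h t).toWord b)
  obtain ⟨ψ, hψ⟩ := collapse hstack ρ hρ _ C E rfl hC
    (fun c hc i hi => Finset.mem_union_left _ (Finset.mem_image.2 ⟨(c, i), by simp [hc, hi], rfl⟩))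
    (fun a ha => by
      have hadd : AddOn J (Jn a b) := fun x hx y _ => by rw [Jn_mul, (hb x).2 hx]
      have h1 : conjs (mk s) U ≤ hadd.zeros := by
        refine (Subgroup.closure_le _).2 ?_
        rintro _ ⟨u, hu, rfl⟩
        refine ⟨hUJ u hu, ?_⟩
        have h2 := Jn_mul a b u u⁻¹
        rw [mul_inv_cancel, Jn_one] at h2
        have hc : act b u ∈ C := Finset.mem_image_of_mem _ hu
        rw [Jn_mul, Jn_mul, act_mul, hC _ hc, Jn_mk, ha _ hc]
        linarith
      have h2 : J ≤ hadd.zeros := by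
        refine sup_le ((Subgroup.closure_le _).2 ?_) h1
        rintro _ ⟨t', rfl⟩
        exact ⟨hhJ t', hU _ hadd (fun g hg => (h1 hg).2) t'⟩
      choose γ hγ using hsurj
      have h3 : ∀ g, Jn a b (γ (act b g)) = Jn a b g := by
        intro g
        have h4 : γ (act b g) * g⁻¹ ∈ J := by
          rw [← hb, act_mul, hγ, ← act_mul, mul_inv_cancel, act_one]
        have h5 : γ (act b g) = γ (act b g) * g⁻¹ * g := by group
        rw [h5, Jn_mul, (h2 h4).2, (hb _).2 h4, zero_add]
      refine ⟨fun v => Jn a b (γ v), fun e _ => ?_⟩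
      have h4 : act e.1 (of e.2) = act b (γ e.1 * of e.2) := by rw [act_mul, hγ]
      dsimp only
      rw [h4, h3, Jn_mul, hγ, Jn_of]
      ring)
  have h1 := rel_path ρ ψ (w := (h t).toWord) b (Nat.zero_le _) le_rfl (fun i _ hi =>
    hψ _ (Finset.mem_union_right _ (Finset.mem_image_of_mem _ (Finset.mem_range.2 hi))))
  simp only [vx, pre_length, mk_toWord, pre_zero, act_one, (hb _).2 (hhJ t)] at h1
  simpa using h1

theorem locInd_of_prim [Countable X] {s : List (X × Bool)} (hs : Prim s)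
    (ρ : FreeGroup X →* M) (hsurj : Function.Surjective ρ)
    (hker : ρ.ker = Subgroup.normalClosure {mk s}) : LocInd M := by
  classical
  rintro C ⟨T, rfl⟩ hne
  choose σ hσ using hsurj
  let h : T → FreeGroup X := fun t => σ t
  let η : FreeGroup T →* FreeGroup X := FreeGroup.lift h
  let ab : FreeGroup T →* Multiplicative (T → ℚ) :=
    FreeGroup.lift (fun t => Multiplicative.ofAdd (Pi.single t 1))
  let Λ : Submodule ℚ (T → ℚ) := Submodule.span ℚ {v | ∃ ω, ρ (η ω) = 1 ∧ v = (ab ω).toAdd}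
  have hρs : ρ (mk s) = 1 := by
    rw [← MonoidHom.mem_ker, hker]; exact Subgroup.subset_normalClosure rfl
  by_cases hΛ : Λ = ⊤
  · exfalso
    let Λ' : Finset (FreeGroup X) → Submodule ℚ (T → ℚ) := fun U =>
      Submodule.span ℚ {v | ∃ ω, η ω ∈ conjs (mk s) U ∧ v = (ab ω).toAdd}
    have hmono : ∀ U V, U ⊆ V → Λ' U ≤ Λ' V := fun U V hUV =>
      Submodule.span_mono (fun v ⟨ω, h1, h2⟩ => ⟨ω, conjs_mono _ hUV h1, h2⟩)
    have hex : ∀ v ∈ Λ, ∃ U, v ∈ Λ' U := by
      intro v hv
      induction hv using Submodule.span_induction with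
      | mem v hv =>
        obtain ⟨ω, h1, h2⟩ := hv
        rw [← MonoidHom.mem_ker, hker] at h1
        obtain ⟨U, hU⟩ := exists_conjs h1
        exact ⟨U, Submodule.subset_span ⟨ω, hU, h2⟩⟩
      | zero => exact ⟨∅, zero_mem _⟩
      | add x y _ _ hx hy =>
        obtain ⟨U, hU⟩ := hx
        obtain ⟨V, hV⟩ := hy
        exact ⟨U ∪ V, add_mem (hmono _ _ Finset.subset_union_left hU)
          (hmono _ _ Finset.subset_union_right hV)⟩
      | smul c x _ hx =>
        obtain ⟨U, hU⟩ := hx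
        exact ⟨U, Submodule.smul_mem _ c hU⟩
    choose V hV using fun t : T => hex (Pi.single t 1) (by rw [hΛ]; trivial)
    let U := Finset.univ.biUnion V
    have hU : ∀ t, Pi.single t 1 ∈ Λ' U := fun t =>
      hmono _ _ (Finset.subset_biUnion_of_mem V (Finset.mem_univ t)) (hV t)
    refine hne ((Subgroup.closure_eq_bot_iff).2 (fun t ht => ?_))
    rw [Set.mem_singleton_iff, ← hσ t]
    refine trivial_of_no_hom hs ρ hρs h U (fun α hα hα0 t' => ?_) ⟨t, ht⟩
    let y : (T → ℚ) →ₗ[ℚ] ℚ := Fintype.linearCombination ℚ (fun t => α (h t))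
    have hy : ∀ t, y (Pi.single t 1) = α (h t) := fun t => by simp [y]
    have hηJ : ∀ ω, η ω ∈ Subgroup.closure (Set.range h) ⊔ conjs (mk s) U := fun ω =>
      Subgroup.mem_sup_left (by rw [← FreeGroup.range_lift_eq_closure]; exact ⟨ω, rfl⟩)
    have hyα : ∀ ω, y (ab ω).toAdd = α (η ω) := by
      intro ω
      induction ω using FreeGroup.induction_on with
      | C1 => simp [hα.map_one]
      | of x => simp [ab, η, hy]
      | inv_of x ih => rw [ab.map_inv, η.map_inv, toAdd_inv, map_neg, ih,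
          hα.map_inv (hηJ _)]
      | mul g g' ih ih' => rw [ab.map_mul, η.map_mul, toAdd_mul, map_add, ih, ih',
          hα _ (hηJ _) _ (hηJ _)]
    have hle : Λ' U ≤ LinearMap.ker y := by
      refine Submodule.span_le.2 ?_
      rintro _ ⟨ω, h1, rfl⟩
      exact (hyα ω).trans (hα0 _ h1)
    rw [← hy]
    exact hle (hU t')
  · obtain ⟨y, hy0, hy⟩ := Λ.exists_le_ker_of_lt_top (lt_top_iff_ne_top.2 hΛ)
    have hwd : ∀ ω ω', ρ (η ω) = ρ (η ω') → y (ab ω).toAdd = y (ab ω').toAdd := by
      intro ω ω' e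
      have h1 : (ab (ω⁻¹ * ω')).toAdd ∈ Λ :=
        Submodule.subset_span ⟨ω⁻¹ * ω', by simp [e], rfl⟩
      have h2 : y _ = 0 := hy h1
      rw [_root_.map_mul, _root_.map_inv, toAdd_mul, toAdd_inv, map_add, map_neg] at h2
      linarith
    let φ : M → ℚ := fun x => if hx : ∃ ω, ρ (η ω) = x then y (ab hx.choose).toAdd else 0
    have hφ : ∀ ω, φ (ρ (η ω)) = y (ab ω).toAdd := fun ω => by
      have hx : ∃ ω', ρ (η ω') = ρ (η ω) := ⟨ω, rfl⟩
      simp only [φ, dif_pos hx]
      exact hwd _ _ hx.choose_spec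
    have hrange : Subgroup.closure (T : Set M) ≤ (ρ.comp η).range := by
      refine (Subgroup.closure_le _).2 (fun t ht => ⟨of ⟨t, ht⟩, ?_⟩)
      simp [η, h, hσ]
    refine ⟨φ, fun a ha b hb => ?_, ?_⟩
    · obtain ⟨ω, rfl⟩ := hrange ha
      obtain ⟨ω', rfl⟩ := hrange hb
      simp only [MonoidHom.comp_apply]
      rw [← _root_.map_mul, ← _root_.map_mul, hφ, hφ, hφ, _root_.map_mul, toAdd_mul, map_add]
    · by_contra hcon
      push Not at hcon
      refine hy0 (LinearMap.pi_ext' (fun t => LinearMap.ext_ring ?_))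
      have h1 := hcon t (Subgroup.subset_closure t.2)
      have h2 := hφ (of t)
      simp only [η, h, lift_apply_of, hσ, ab] at h2
      rw [h1] at h2
      simpa using h2.symm

end Pool.Agent.Shared.OneRelator
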